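import Pool.Agent.Helper68.EP.St3

set_option autoImplicit false

/-! Project EP, module EM1 (written by helper62). -/

open MeasureTheory Set Filter Topology
open scoped ENNReal RealInnerProductSpace

namespace Pool.Agent.Helper62.EP

open Pool.Agent.Helper68.EP Pool.Agent.Helper20.RG
open Pool.Agent.Helper68.LM (Pl BB Bd Av HL ft fm DQ)
open Pool.Agent.Helper20.RL (RQ Rich BM Fml)

theorem DD_pos (P : Par) (u : ℕ) : 0 < DD P u := by
  unfold DD
  positivity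

theorem DD_anti (P : Par) {u v : ℕ} (h : u ≤ v) : DD P v ≤ DD P u := by
  unfold DD
  apply Real.rpow_le_rpow_of_exponent_le (by norm_num)
  have h1 : (u : ℝ) ≤ v := by exact_mod_cast h
  have h2 : 0 < P.s := by linarith [P.hs]
  nlinarith

theorem et_pos (P : Par) (u q : ℕ) : 0 < et P u q := by
  unfold et
  positivity

theorem DD_lt (P : Par) {u : ℕ} {θ : ℝ} (ho : Ok P u θ) : DD P u < θ / 32 := by
  have h1 := ho.den
  have h2 : et P u (q0 P u) ≤ 1 := by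
    unfold et
    rw [← zpow_zero (2 : ℝ)]
    apply zpow_le_zpow_right₀ (by norm_num)
    have := ho.qq.2
    omega
  have h3 := ho.th.1
  have h4 : et P u (q0 P u) * θ ≤ 1 * θ := by gcongr
  linarith

theorem cq_nonneg (P : Par) (u q : ℕ) {θ : ℝ} (h : 0 < θ) : 0 ≤ cq P u q θ := by
  unfold cq
  have := DD_pos P u
  have := et_pos P u q
  positivity

theorem hEM1 (hEFB : StEFB) (hEVF : StEVF) (hEF1 : StEF1) (hECQ : StECQ) (hEEN : StEEN)
    (_hEME : StEME) (hLGR : Pool.Agent.Helper20.RL.StLGR) : StEM1 := by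
  intro P Δ u₁ q u₂ j₂ k₂ θ δ E y hSy hO1 hO2 hu hq0 hq1 hj₂ hE hδ hnum hy hvol
  obtain ⟨hV1, -, -, hV4⟩ := hEVF P Δ u₂ j₂ k₂ θ E hE hO1.th.1 |>.1 y hy
  obtain ⟨hL1, -, -, -, -⟩ := hLGR
  obtain ⟨-, hF2, -, -, -⟩ := hEFB
  set D := DD P u₁ with hD
  set s₂ := Δ.sl u₂ j₂ with hs₂
  set B := Bc P Δ u₂ j₂ k₂ θ E y with hB
  set Q := Qc P Δ u₂ j₂ k₂ θ E y with hQ
  set Y := Bad P Δ u₁ q u₂ j₂ k₂ θ E ∩ Q with hY
  have hQe : Q = RQ s₂ (k₂ - (u₂ : ℤ)) B y := rfl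
  have hQv : volume Q = ENNReal.ofReal ((2 : ℝ) ^ (k₂ - (u₂ : ℤ) + B)) := by
    rw [hQe]
    exact (hL1 _ _ _ _).2.1
  set qv : ℝ := (2 : ℝ) ^ (k₂ - (u₂ : ℤ) + B) with hqv
  have hqv0 : 0 < qv := by positivity
  have hmono : ∀ b b' : ℤ, b ≤ b' → Fb E D b ⊆ Fb E D b' := fun b b' h =>
    hF2 E D D b b' h le_rfl
  -- (1)
  have h1 : ∀ z ∈ Y, ∀ b : ℤ, b ≤ B + 1 → z ∉ Fb E D b := by
    intro z hz b hb
    have hzT : z ∈ Tc P Δ u₂ j₂ k₂ θ E := hz.1.1
    have h := (hEF1 P Δ u₂ j₂ k₂ θ E z hSy hO2 hj₂ hE hzT).2.2.1 D b (DD_lt P hO1)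
    apply h
    rw [(hV4 z hz.2).2.1]
    exact hb
  -- (2)
  have h2 : ∀ z ∈ Y, z ∈ Fb E D (k₂ - 2 ^ q0 P u₂) := by
    intro z hz
    have hzT : z ∈ Tc P Δ u₂ j₂ k₂ θ E := hz.1.1
    have h : z ∈ Fb E (DD P u₂) (k₂ - 2 ^ q0 P u₂) := hzT.1
    exact hF2 E (DD P u₂) D _ _ le_rfl (DD_anti P hu.le) h
  have hYfin : volume Y ≠ ∞ := by
    refine ne_top_of_le_ne_top ?_ (measure_mono (inter_subset_right : Y ⊆ Q))
    rw [hQv]
    exact ENNReal.ofReal_ne_top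
  have hYpos : 0 < volume Y := bot_le.trans_lt hvol
  -- (3)
  obtain ⟨W, hW1, hW2⟩ : ∃ W : ℤ, volume Y ≤ 2 * volume (Y ∩ Fb E D W) ∧
      ∀ W' : ℤ, volume Y ≤ 2 * volume (Y ∩ Fb E D W') → W ≤ W' := by
    apply Int.exists_least_of_bdd
    · refine ⟨B + 2, ?_⟩
      intro W' hW'
      by_contra hlt
      have hem : Y ∩ Fb E D W' = ∅ := by
        apply eq_empty_of_forall_notMem
        rintro z ⟨hz1, hz2⟩
        exact h1 z hz1 W' (by omega) hz2
      rw [hem] at hW'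
      simp only [measure_empty, mul_zero, nonpos_iff_eq_zero] at hW'
      exact hYpos.ne' hW'
    · refine ⟨k₂ - 2 ^ q0 P u₂, ?_⟩
      have hem : Y ∩ Fb E D (k₂ - 2 ^ q0 P u₂) = Y := inter_eq_left.2 h2
      rw [hem, two_mul]
      exact le_self_add
  have hWlow : B + 2 ≤ W := by
    by_contra hlt
    have hem : Y ∩ Fb E D W = ∅ := by
      apply eq_empty_of_forall_notMem
      rintro z ⟨hz1, hz2⟩
      exact h1 z hz1 W (by omega) hz2
    rw [hem] at hW1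
    simp only [measure_empty, mul_zero, nonpos_iff_eq_zero] at hW1
    exact hYpos.ne' hW1
  have hWup : W ≤ k₂ - 2 ^ q0 P u₂ := by
    apply hW2
    have hem : Y ∩ Fb E D (k₂ - 2 ^ q0 P u₂) = Y := inter_eq_left.2 h2
    rw [hem, two_mul]
    exact le_self_add
  have hWm : 2 * volume (Y ∩ Fb E D (W - 1)) < volume Y := by
    by_contra hlt
    have := hW2 (W - 1) (not_lt.1 hlt)
    omega
  -- (5) the claim
  have hq5 : 5 ≤ q := hO1.qq.1.trans hq0
  set G : ℕ := 2 ^ (q - 4) with hG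
  have hG0 : 0 < G := by positivity
  obtain ⟨M, hM⟩ : ∃ M : ℕ, M = 2 ^ (q1 P u₁ - (q - 4)) := ⟨_, rfl⟩
  have hLM : 2 ^ q1 P u₁ = G * M := by
    rw [hG, hM, ← pow_add]
    congr 1
    omega
  have hs2 : |s₂| ≤ 1 := hSy.slope u₂ j₂ (by have := hO2.u1; omega) hj₂
  set r : ℤ := (W - 1) / G with hr
  set X := Y ∩ (Fb E D (W + 2 ^ q1 P u₁) \ Fb E D (W - 1)) with hX
  set N : Finset ℤ := (Finset.Ico (r + 16) (r + 34 + M)).filter
    (fun n => (G : ℤ) * n - 12 * 2 ^ (q - 4) ≤ k₂ - (u₂ : ℤ)) with hN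
  have hGz : ((2 : ℤ) ^ (q - 4)) = (G : ℤ) := by rw [hG]; push_cast; rfl
  have hsub : X ⊆ ⋃ n ∈ N, (Rg1 P Δ u₁ q ((G : ℤ) * n) s₂ θ E ∩ Q) := by
    rintro z ⟨hzY, hzu, hzl⟩
    obtain ⟨hzT2, j₁, hj₁, k₁, hk₁, hzT1, hzL, hsl⟩ := hzY.1
    set n : ℤ := k₁ / G with hn
    have hGp : (0 : ℤ) < (G : ℤ) := by exact_mod_cast hG0
    have hn1 : (G : ℤ) * n ≤ k₁ := Int.mul_ediv_self_le hGp.ne'
    have hn2 : k₁ < (G : ℤ) * n + G := Int.lt_mul_ediv_self_add hGp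
    have hen := hEEN P Δ u₁ j₁ q k₁ ((G : ℤ) * n) s₂ θ E z hSy hO1 hj₁ hE hq0 hq1 hzT1 hzL hn1
      (by rw [hGz]; exact hn2) hsl
    rw [hGz] at hen
    obtain ⟨he1, he2, he3⟩ := hen
    have hc1 : W ≤ (G : ℤ) * n - 15 * G := by
      by_contra hlt
      exact hzl (hmono _ _ (by omega) he2)
    have hc2 : (G : ℤ) * n - 33 * G < W + 2 ^ q1 P u₁ := by
      by_contra hlt
      exact he3 (hmono _ _ (by omega) hzu)
    have hc3 : (G : ℤ) * n - 33 * G < k₂ - 2 ^ q0 P u₂ := by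
      by_contra hlt
      exact he3 (hmono _ _ (by omega) (h2 z hzY))
    have hr1 : (G : ℤ) * r ≤ W - 1 := Int.mul_ediv_self_le hGp.ne'
    have hr2 : W - 1 < (G : ℤ) * r + G := Int.lt_mul_ediv_self_add hGp
    have hLz : (2 : ℤ) ^ q1 P u₁ = (G : ℤ) * M := by exact_mod_cast hLM
    rw [hLz] at hc2
    refine mem_iUnion₂.2 ⟨n, ?_, he1, hzY.2⟩
    rw [hN, Finset.mem_filter, Finset.mem_Ico]
    refine ⟨⟨?_, ?_⟩, ?_⟩
    · by_contra hlt
      have h3 : n ≤ r + 15 := by omega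
      have h4 : (G : ℤ) * n ≤ (G : ℤ) * (r + 15) := by gcongr
      have h5 : (G : ℤ) * (r + 15) = (G : ℤ) * r + 15 * G := by ring
      omega
    · by_contra hlt
      have h3 : r + 34 + (M : ℤ) ≤ n := by omega
      have h4 : (G : ℤ) * (r + 34 + M) ≤ (G : ℤ) * n := by gcongr
      have h5 : (G : ℤ) * (r + 34 + M) = (G : ℤ) * r + 34 * G + (G : ℤ) * M := by ring
      omega
    · rw [hGz]
      by_cases hcase : (u₂ : ℤ) ≤ 12 * G
      · omega
      · have h6 : (64 : ℤ) * u₂ ≤ 2 ^ q0 P u₂ := by exact_mod_cast hO2.uq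
        omega
  have hcq := cq_nonneg P u₁ q hO1.th.1
  have hXle : volume X ≤ ENNReal.ofReal (δ / 4 * qv) := by
    calc volume X ≤ volume (⋃ n ∈ N, (Rg1 P Δ u₁ q ((G : ℤ) * n) s₂ θ E ∩ Q)) := measure_mono hsub
      _ ≤ ∑ n ∈ N, volume (Rg1 P Δ u₁ q ((G : ℤ) * n) s₂ θ E ∩ Q) :=
        measure_biUnion_finset_le _ _
      _ ≤ ∑ _n ∈ N, ENNReal.ofReal (cq P u₁ q θ * qv) := by
        apply Finset.sum_le_sum
        intro n hn
        rw [hN, Finset.mem_filter] at hn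
        exact hECQ P Δ u₁ q ((G : ℤ) * n) (k₂ - (u₂ : ℤ)) B s₂ θ E y hSy hO1 (by omega) hs2 hE hn.2
      _ = (N.card : ℝ≥0∞) * ENNReal.ofReal (cq P u₁ q θ * qv) := by
        rw [Finset.sum_const, nsmul_eq_mul]
      _ = ENNReal.ofReal ((N.card : ℝ) * (cq P u₁ q θ * qv)) := by
        rw [← ENNReal.ofReal_natCast, ← ENNReal.ofReal_mul (by positivity)]
      _ ≤ ENNReal.ofReal (δ / 4 * qv) := by
        apply ENNReal.ofReal_le_ofReal
        have hc : N.card ≤ M + 19 := by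
          calc N.card ≤ (Finset.Ico (r + 16) (r + 34 + M)).card := Finset.card_filter_le _ _
            _ = (r + 34 + M - (r + 16)).toNat := Int.card_Ico _ _
            _ ≤ M + 19 := by omega
        have hc' : (N.card : ℝ) ≤ (M : ℝ) + 19 := by exact_mod_cast hc
        have hMe : (2 : ℝ) ^ q1 P u₁ / 2 ^ (q - 4) = (M : ℝ) := by
          have h7 : ((2 : ℝ) ^ q1 P u₁) = (2 : ℝ) ^ (q - 4) * (M : ℝ) := by
            have := hLM
            rw [hG] at this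
            exact_mod_cast this
          rw [h7]
          field_simp
        rw [hMe] at hnum
        calc (N.card : ℝ) * (cq P u₁ q θ * qv) ≤ ((M : ℝ) + 19) * (cq P u₁ q θ * qv) := by
              gcongr
          _ = (((M : ℝ) + 19) * cq P u₁ q θ) * qv := by ring
          _ ≤ δ / 4 * qv := by gcongr
  -- real numbers
  have hYR : δ * qv < (volume Y).toReal := by
    rw [hQv, ← ENNReal.ofReal_mul hδ.le] at hvol
    exact (ENNReal.ofReal_lt_iff_lt_toReal (by positivity) hYfin).1 hvol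
  have hfin : ∀ T : Set Pl, T ⊆ Y → volume T ≠ ∞ := fun T hT =>
    ne_top_of_le_ne_top hYfin (measure_mono hT)
  refine ⟨W, by omega, hWup, ?_, ?_⟩
  · have h3 : volume (Y ∩ Fb E D W) ≤ volume (Fb E D W ∩ Q) :=
      measure_mono (fun z hz => ⟨hz.2, hz.1.2⟩)
    refine le_trans ?_ h3
    rw [hQv, ← ENNReal.ofReal_mul (by positivity),
      ENNReal.ofReal_le_iff_le_toReal (hfin _ inter_subset_left)]
    have h4 : (volume Y).toReal ≤ 2 * (volume (Y ∩ Fb E D W)).toReal := by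
      have := ENNReal.toReal_mono (ENNReal.mul_ne_top (by norm_num) (hfin _ inter_subset_left)) hW1
      simpa [ENNReal.toReal_mul] using this
    linarith
  · have hXfin := hfin X inter_subset_left
    have hRfin := hfin (Y \ Fb E D (W + 2 ^ q1 P u₁)) sdiff_subset
    have hAfin := hfin (Y ∩ Fb E D (W - 1)) inter_subset_left
    have hcov : Y ⊆ (Y ∩ Fb E D (W - 1)) ∪ X ∪ (Y \ Fb E D (W + 2 ^ q1 P u₁)) := by
      intro z hz
      by_cases ha : z ∈ Fb E D (W - 1)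
      · exact Or.inl (Or.inl ⟨hz, ha⟩)
      · by_cases hb : z ∈ Fb E D (W + 2 ^ q1 P u₁)
        · exact Or.inl (Or.inr ⟨hz, hb, ha⟩)
        · exact Or.inr ⟨hz, hb⟩
    have h3 : volume Y ≤ volume (Y ∩ Fb E D (W - 1)) + volume X +
        volume (Y \ Fb E D (W + 2 ^ q1 P u₁)) :=
      (measure_mono hcov).trans ((measure_union_le _ _).trans
        (add_le_add (measure_union_le _ _) le_rfl))
    have h4 := ENNReal.toReal_mono (ENNReal.add_ne_top.2 ⟨ENNReal.add_ne_top.2 ⟨hAfin, hXfin⟩,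
      hRfin⟩) h3
    rw [ENNReal.toReal_add (ENNReal.add_ne_top.2 ⟨hAfin, hXfin⟩) hRfin,
      ENNReal.toReal_add hAfin hXfin] at h4
    have h5 : (volume X).toReal ≤ δ / 4 * qv := by
      have := ENNReal.toReal_mono ENNReal.ofReal_ne_top hXle
      rwa [ENNReal.toReal_ofReal (by positivity)] at this
    have h6 : 2 * (volume (Y ∩ Fb E D (W - 1))).toReal < (volume Y).toReal := by
      have := (ENNReal.toReal_lt_toReal (ENNReal.mul_ne_top (by norm_num) hAfin) hYfin).2 hWm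
      simpa [ENNReal.toReal_mul] using this
    rw [hQv, ← ENNReal.ofReal_mul (by positivity), ENNReal.ofReal_le_iff_le_toReal hRfin]
    linarith

end Pool.Agent.Helper62.EP
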