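import Pool.Agent.Helper61.EP.StL
import Pool.Agent.Helper17.LM.M_HLS
import Pool.Agent.Helper27.LM.M_HLW
import Pool.Agent.Helper42.LM.M_MZ1
import Pool.Agent.Helper42.LM.M_LC

set_option autoImplicit false

/-! Project EP, module LGO (written by helper62). -/

open MeasureTheory Set Filter Topology
open scoped ENNReal RealInnerProductSpace

namespace Pool.Agent.Helper62.EPL

open Pool.Agent.Helper61.EPL Pool.Agent.Helper20.RG Pool.Agent.Helper68.EP
open Pool.Agent.Helper20.RL (RQ Rich BM Fml Hit)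
open Pool.Agent.Helper61.EP (trS Ex2 Yc Zc Ec am cutf)
open Pool.Agent.Helper68.LM (Pl BB Bd Av HL ft fm DQ)

theorem aHLS : Pool.Agent.Helper68.LM.StHLS :=
  Pool.Agent.Helper17.LM.hHLS Pool.Agent.Helper27.LM.hHLW
    (Pool.Agent.Helper42.LM.hMZ1 Pool.Agent.Helper42.LM.hLC)

/-- Sum of a geometric series over the integers `≤ N`. -/
theorem tsum_le_int {p : ℝ} (hp : 0 < p) (N : ℤ) :
    ∑' l : ℤ, (if l ≤ N then ENNReal.ofReal ((2 : ℝ) ^ (p * l)) else 0) ≤
      ENNReal.ofReal (1 / (1 - (2 : ℝ) ^ (-p))) * ENNReal.ofReal ((2 : ℝ) ^ (p * N)) := by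
  have hq0 : 0 < (2 : ℝ) ^ (-p) := by positivity
  have hq1 : (2 : ℝ) ^ (-p) < 1 := Real.rpow_lt_one_of_one_lt_of_neg (by norm_num) (by linarith)
  have hinj : Function.Injective (fun i : ℕ => N - (i : ℤ)) := by
    intro i j h
    simp only at h
    omega
  rw [← hinj.tsum_eq]
  · have h1 : ∀ i : ℕ, (if N - (i : ℤ) ≤ N then
        ENNReal.ofReal ((2 : ℝ) ^ (p * ((N - (i : ℤ) : ℤ) : ℝ))) else 0) =
        ENNReal.ofReal ((2 : ℝ) ^ (p * N)) * (ENNReal.ofReal ((2 : ℝ) ^ (-p))) ^ i := by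
      intro i
      rw [if_pos (by omega), ← ENNReal.ofReal_pow hq0.le, ← ENNReal.ofReal_mul (by positivity),
        ← Real.rpow_natCast, ← Real.rpow_mul (by norm_num), ← Real.rpow_add (by norm_num)]
      congr 2
      push_cast
      ring
    rw [tsum_congr h1, ENNReal.tsum_mul_left, ENNReal.tsum_geometric, mul_comm]
    gcongr
    rw [one_div, ENNReal.ofReal_inv_of_pos (by linarith), ENNReal.ofReal_sub _ hq0.le,
      ENNReal.ofReal_one]
  · intro l hl
    simp only [Function.mem_support, ne_eq, ite_eq_right_iff, not_forall] at hl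
    obtain ⟨h1, -⟩ := hl
    exact ⟨(N - l).toNat, by simp only; omega⟩

/-- The sum over the levels below the value `h`. -/
theorem level_sum {a p s : ℝ} (ha : 0 < a) (hp : 0 < p) (hs : 1 < s) (h : ℝ≥0∞) :
    ∑' l : ℤ, (if ENNReal.ofReal (a * (2 : ℝ) ^ (s * l)) < h then
      ENNReal.ofReal ((2 : ℝ) ^ (p * l)) else 0) ≤
      ENNReal.ofReal (1 / (1 - (2 : ℝ) ^ (-p)) * (a ^ (p / s))⁻¹) * h ^ (p / s) := by
  have hq1 : (2 : ℝ) ^ (-p) < 1 := Real.rpow_lt_one_of_one_lt_of_neg (by norm_num) (by linarith)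
  have hc1 : 0 < 1 / (1 - (2 : ℝ) ^ (-p)) := by
    apply one_div_pos.2
    linarith
  have hap : 0 < a ^ (p / s) := by positivity
  have hps : 0 < p / s := by positivity
  by_cases htop : h = ∞
  · rw [htop, ENNReal.top_rpow_of_pos hps, ENNReal.mul_top]
    · exact le_top
    · rw [ne_eq, ENNReal.ofReal_eq_zero, not_le]
      positivity
  by_cases hne : ∃ l : ℤ, ENNReal.ofReal (a * (2 : ℝ) ^ (s * l)) < h
  · obtain ⟨N, hN1, hN2⟩ : ∃ N : ℤ, ENNReal.ofReal (a * (2 : ℝ) ^ (s * N)) < h ∧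
        ∀ l : ℤ, ENNReal.ofReal (a * (2 : ℝ) ^ (s * l)) < h → l ≤ N := by
      apply Int.exists_greatest_of_bdd
      · refine ⟨max 0 ⌈h.toReal / a⌉, ?_⟩
        intro l hl
        rcases le_or_gt l 0 with hl0 | hl0
        · exact hl0.trans (le_max_left _ _)
        · refine le_trans ?_ (le_max_right _ _)
          have h1 : a * (2 : ℝ) ^ (s * l) < h.toReal :=
            (ENNReal.ofReal_lt_iff_lt_toReal (by positivity) htop).1 hl
          obtain ⟨m, rfl⟩ := Int.eq_ofNat_of_zero_le hl0.le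
          have h2 : (m : ℝ) < (2 : ℝ) ^ (s * (m : ℝ)) := by
            calc (m : ℝ) < (2 : ℝ) ^ m := by exact_mod_cast Nat.lt_two_pow_self
              _ = (2 : ℝ) ^ (m : ℝ) := (Real.rpow_natCast _ _).symm
              _ ≤ (2 : ℝ) ^ (s * (m : ℝ)) := by
                apply Real.rpow_le_rpow_of_exponent_le (by norm_num)
                have : (0 : ℝ) ≤ m := Nat.cast_nonneg m
                nlinarith
          have h3 : (m : ℝ) < h.toReal / a := by
            rw [lt_div_iff₀ ha]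
            have h4 : (((m : ℤ) : ℝ)) = (m : ℝ) := by push_cast; rfl
            rw [h4] at h1
            nlinarith
          have h5 : (m : ℝ) ≤ (⌈h.toReal / a⌉ : ℝ) := h3.le.trans (Int.le_ceil _)
          exact_mod_cast h5
      · exact hne
    have h1 : ∑' l : ℤ, (if ENNReal.ofReal (a * (2 : ℝ) ^ (s * l)) < h then
        ENNReal.ofReal ((2 : ℝ) ^ (p * l)) else 0) ≤
        ∑' l : ℤ, (if l ≤ N then ENNReal.ofReal ((2 : ℝ) ^ (p * l)) else 0) := by
      apply ENNReal.tsum_le_tsum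
      intro l
      by_cases hl : ENNReal.ofReal (a * (2 : ℝ) ^ (s * l)) < h
      · rw [if_pos hl, if_pos (hN2 l hl)]
      · rw [if_neg hl]
        exact bot_le
    refine h1.trans ((tsum_le_int hp N).trans ?_)
    rw [ENNReal.ofReal_mul hc1.le, mul_assoc]
    gcongr
    have h2 : ENNReal.ofReal (a ^ (p / s) * (2 : ℝ) ^ (p * N)) ≤ h ^ (p / s) := by
      have h3 := ENNReal.rpow_le_rpow hN1.le hps.le
      rw [ENNReal.ofReal_rpow_of_nonneg (by positivity) hps.le,
        Real.mul_rpow ha.le (by positivity), ← Real.rpow_mul (by norm_num)] at h3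
      have h4 : s * (N : ℝ) * (p / s) = p * N := by
        have : s ≠ 0 := by linarith
        field_simp
      rw [h4] at h3
      exact h3
    calc ENNReal.ofReal ((2 : ℝ) ^ (p * N))
        = ENNReal.ofReal ((a ^ (p / s))⁻¹) * ENNReal.ofReal (a ^ (p / s) * (2 : ℝ) ^ (p * N)) := by
          rw [← ENNReal.ofReal_mul (by positivity)]
          congr 1
          field_simp
      _ ≤ ENNReal.ofReal ((a ^ (p / s))⁻¹) * h ^ (p / s) := by gcongr
  · have h1 : ∀ l : ℤ, (if ENNReal.ofReal (a * (2 : ℝ) ^ (s * l)) < h then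
        ENNReal.ofReal ((2 : ℝ) ^ (p * l)) else 0) = 0 := by
      intro l
      rw [if_neg]
      intro hl
      exact hne ⟨l, hl⟩
    rw [tsum_congr h1, tsum_zero]
    exact bot_le

theorem HL_le {ρ c : ℝ} {g F : Pl → ℝ} (h : ∀ y, ‖g y‖ₑ ≤ ENNReal.ofReal c * ‖F y‖ₑ) (x : Pl) :
    HL ρ g x ≤ ENNReal.ofReal c * HL ρ F x := by
  unfold HL
  refine iSup_le fun k => ?_
  calc ∫⁻ w in Metric.closedBall (0 : Pl) ρ, ‖g (x - (2 : ℝ) ^ k • w)‖ₑ
      ≤ ∫⁻ w in Metric.closedBall (0 : Pl) ρ, ENNReal.ofReal c * ‖F (x - (2 : ℝ) ^ k • w)‖ₑ :=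
        lintegral_mono fun w => h _
    _ = ENNReal.ofReal c * ∫⁻ w in Metric.closedBall (0 : Pl) ρ, ‖F (x - (2 : ℝ) ^ k • w)‖ₑ :=
        lintegral_const_mul' _ _ ENNReal.ofReal_ne_top
    _ ≤ _ := by
        gcongr
        exact le_iSup (fun k : ℤ => ∫⁻ w in Metric.closedBall (0 : Pl) ρ,
          ‖F (x - (2 : ℝ) ^ k • w)‖ₑ) k

theorem BB_pow {f : Pl → ℝ} (hf : BB f) (h0 : ∀ x, 0 ≤ f x) {s : ℝ} (hs : 0 < s) :
    BB (fun x => f x ^ s) := by
  obtain ⟨hm, K, h1, h2⟩ := hf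
  refine ⟨hm.pow_const s, max K (K ^ s), ?_, ?_⟩
  · intro x
    rw [abs_of_nonneg (Real.rpow_nonneg (h0 x) _)]
    refine le_trans ?_ (le_max_right _ _)
    exact Real.rpow_le_rpow (h0 x) ((le_abs_self _).trans (h1 x)) hs.le
  · intro x hx
    have h3 : f x = 0 := h2 x ((le_max_left _ _).trans_lt hx)
    simp only [h3]
    exact Real.zero_rpow hs.ne'

theorem BB_ind {f : Pl → ℝ} (hf : BB f) (m : ℤ) : BB ((Gf f m).indicator 1) := by
  obtain ⟨hm, K, h1, h2⟩ := hf
  have hG : MeasurableSet (Gf f m) := by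
    unfold Gf
    exact (measurableSet_le measurable_const hm).inter (measurableSet_lt hm measurable_const)
  refine ⟨measurable_one.indicator hG, max K 1, ?_, ?_⟩
  · intro x
    refine le_trans ?_ (le_max_right _ _)
    by_cases hx : x ∈ Gf f m
    · rw [indicator_of_mem hx]
      simp
    · rw [indicator_of_notMem hx]
      simp
  · intro x hx
    apply indicator_of_notMem
    intro hxG
    have h3 : f x = 0 := h2 x ((le_max_left _ _).trans_lt hx)
    have h4 := hxG.1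
    rw [h3] at h4
    have h5 : (0 : ℝ) < (2 : ℝ) ^ m := by positivity
    linarith

theorem hLGO (hMM : Pool.Agent.Helper20.RG.StMM) (hSYS : Pool.Agent.Helper20.RG.StSYS)
    (hGD : Pool.Agent.Helper20.RG.StGD) (hHLY : Pool.Agent.Helper20.RG.StHLY)
    (hLZF : Pool.Agent.Helper61.EPL.StLZF) : Pool.Agent.Helper61.EPL.StLGO := by
  intro φ τ A₁ p s Cf c U₀ hG hGap hA hs hsp hCf hU₀
  have hp : 0 < p := by linarith
  have hs0 : 0 < s := by linarith
  obtain ⟨R, hR⟩ : ∃ R : ℝ, R = ‖c‖ + |φ 0| + 3 := ⟨_, rfl⟩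
  obtain ⟨ρ, hρ⟩ : ∃ ρ : ℝ, ρ = max (2 * Cf) (2 * (R + 3)) := ⟨_, rfl⟩
  obtain ⟨K, hK⟩ : ∃ K : ℕ, K = KA A₁ p U₀ := ⟨_, rfl⟩
  obtain ⟨a, ha⟩ : ∃ a : ℝ, a = 1 / (4 * (4 : ℝ) ^ K) := ⟨_, rfl⟩
  have h4K : (1 : ℝ) ≤ (4 : ℝ) ^ K := one_le_pow₀ (by norm_num)
  have ha0 : 0 < a := by rw [ha]; positivity
  have ha4 : a ≤ 1 / 4 := by
    rw [ha]
    apply one_div_le_one_div_of_le (by norm_num)
    linarith
  have hρ1 : 2 * Cf ≤ ρ := by rw [hρ]; exact le_max_left _ _
  have hρ2 : 2 * (R + 3) ≤ ρ := by rw [hρ]; exact le_max_right _ _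
  have hρ0 : 0 < ρ := by linarith
  obtain ⟨hmeas, hstr⟩ := aHLS
  obtain ⟨C₂, hC₂, hHL⟩ := hstr ρ hρ0 (p / s) ((one_lt_div hs0).2 hsp)
  obtain ⟨C₁, hC₁⟩ : ∃ C₁ : ℝ, C₁ = 1 / (1 - (2 : ℝ) ^ (-p)) * (a ^ (p / s))⁻¹ := ⟨_, rfl⟩
  have hq1 : (2 : ℝ) ^ (-p) < 1 := Real.rpow_lt_one_of_one_lt_of_neg (by norm_num) (by linarith)
  have hC₁0 : 0 < C₁ := by
    rw [hC₁]
    have : 0 < 1 / (1 - (2 : ℝ) ^ (-p)) := by
      apply one_div_pos.2
      linarith
    positivity
  refine ⟨max 1 (C₁ * C₂), le_max_left _ _, ?_⟩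
  intro f hf hf0
  obtain ⟨F, hF⟩ : ∃ F : Pl → ℝ, F = fun x => f x ^ s := ⟨_, rfl⟩
  have hFB : BB F := by rw [hF]; exact BB_pow hf hf0 hs0
  have hF0 : ∀ x, 0 ≤ F x := by
    intro x
    rw [hF]
    exact Real.rpow_nonneg (hf0 x) _
  have hHm : Measurable (HL ρ F) := hmeas ρ F hFB
  refine ⟨fun l => {x | ENNReal.ofReal (a * (2 : ℝ) ^ (s * l)) < HL ρ F x}, ?_, ?_⟩
  · have hXm : ∀ l : ℤ, MeasurableSet {x | ENNReal.ofReal (a * (2 : ℝ) ^ (s * l)) < HL ρ F x} :=
      fun l => measurableSet_lt measurable_const hHm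
    have h1 : ∀ l : ℤ, ENNReal.ofReal ((2 : ℝ) ^ (p * l)) *
        volume {x | ENNReal.ofReal (a * (2 : ℝ) ^ (s * l)) < HL ρ F x} =
        ∫⁻ x, (if ENNReal.ofReal (a * (2 : ℝ) ^ (s * l)) < HL ρ F x then
          ENNReal.ofReal ((2 : ℝ) ^ (p * l)) else 0) := by
      intro l
      rw [← lintegral_indicator_const (hXm l)]
      congr 1
      ext x
      by_cases hx : ENNReal.ofReal (a * (2 : ℝ) ^ (s * l)) < HL ρ F x
      · rw [if_pos hx, indicator_of_mem]
        exact hx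
      · rw [if_neg hx, indicator_of_notMem]
        exact hx
    simp only []
    rw [tsum_congr h1, ← lintegral_tsum]
    · calc ∫⁻ x, ∑' l : ℤ, (if ENNReal.ofReal (a * (2 : ℝ) ^ (s * l)) < HL ρ F x then
              ENNReal.ofReal ((2 : ℝ) ^ (p * l)) else 0)
          ≤ ∫⁻ x, ENNReal.ofReal C₁ * HL ρ F x ^ (p / s) := by
            apply lintegral_mono
            intro x
            rw [hC₁]
            exact level_sum ha0 hp hs _
        _ = ENNReal.ofReal C₁ * ∫⁻ x, HL ρ F x ^ (p / s) :=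
            lintegral_const_mul' _ _ ENNReal.ofReal_ne_top
        _ ≤ ENNReal.ofReal C₁ * (ENNReal.ofReal C₂ * ∫⁻ x, ENNReal.ofReal (F x) ^ (p / s)) := by
            gcongr
            exact hHL F hFB hF0
        _ = ENNReal.ofReal (C₁ * C₂) * ∫⁻ x, ENNReal.ofReal (f x) ^ p := by
            rw [← mul_assoc, ← ENNReal.ofReal_mul hC₁0.le]
            congr 2
            ext x
            rw [hF]
            simp only []
            rw [← ENNReal.ofReal_rpow_of_nonneg (hf0 x) hs0.le, ← ENNReal.rpow_mul]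
            congr 1
            field_simp
        _ ≤ _ := by
            gcongr
            exact le_max_right _ _
    · intro l
      exact (Measurable.ite (hXm l) measurable_const measurable_const).aemeasurable
  · intro l x hx
    have hx' : HL ρ F x ≤ ENNReal.ofReal (a * (2 : ℝ) ^ (s * l)) := not_lt.1 hx
    have hzr : ∀ m : ℤ, (2 : ℝ) ^ m = (2 : ℝ) ^ (m : ℝ) := fun m => (Real.rpow_intCast _ _).symm
    refine ⟨?_, ?_⟩
    · intro u
      have hmul : (2 : ℝ) ^ (-(s * ((l : ℝ) + u))) * (a * (2 : ℝ) ^ (s * l)) ≤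
          (2 : ℝ) ^ (-(s * u)) / 4 := by
        have h2 : (2 : ℝ) ^ (-(s * ((l : ℝ) + u))) * (2 : ℝ) ^ (s * l) = (2 : ℝ) ^ (-(s * u)) := by
          rw [← Real.rpow_add (by norm_num)]
          congr 1
          ring
        have h3 : (2 : ℝ) ^ (-(s * ((l : ℝ) + u))) * (a * (2 : ℝ) ^ (s * l)) =
            a * (2 : ℝ) ^ (-(s * u)) := by
          rw [← h2]
          ring
        rw [h3]
        have h4 : 0 < (2 : ℝ) ^ (-(s * u)) := by positivity
        nlinarith
      refine hGD Cf ρ _ _ x hCf hρ1 (by positivity) (BB_ind hf _) ?_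
      have hle : ∀ y, ‖((Gf f (l + (u : ℤ))).indicator (1 : Pl → ℝ)) y‖ₑ ≤
          ENNReal.ofReal ((2 : ℝ) ^ (-(s * ((l : ℝ) + u)))) * ‖F y‖ₑ := by
        intro y
        by_cases hy : y ∈ Gf f (l + (u : ℤ))
        · rw [indicator_of_mem hy, Pi.one_apply, enorm_one, Real.enorm_eq_ofReal (hF0 y),
            ← ENNReal.ofReal_mul (by positivity), ← ENNReal.ofReal_one]
          apply ENNReal.ofReal_le_ofReal
          have h5 : (2 : ℝ) ^ ((l : ℝ) + u) ≤ f y := by
            have h6 := hy.1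
            rw [hzr] at h6
            push_cast at h6
            exact h6
          have h7 : (2 : ℝ) ^ (s * ((l : ℝ) + u)) ≤ F y := by
            rw [hF]
            simp only []
            calc (2 : ℝ) ^ (s * ((l : ℝ) + u)) = ((2 : ℝ) ^ ((l : ℝ) + u)) ^ s := by
                  rw [← Real.rpow_mul (by norm_num), mul_comm s]
              _ ≤ f y ^ s := Real.rpow_le_rpow (by positivity) h5 hs0.le
          calc (1 : ℝ) = (2 : ℝ) ^ (-(s * ((l : ℝ) + u))) * (2 : ℝ) ^ (s * ((l : ℝ) + u)) := by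
                rw [← Real.rpow_add (by norm_num), neg_add_cancel, Real.rpow_zero]
            _ ≤ _ := by gcongr
        · rw [indicator_of_notMem hy, enorm_zero]
          exact bot_le
      calc HL ρ ((Gf f (l + (u : ℤ))).indicator 1) x
          ≤ ENNReal.ofReal ((2 : ℝ) ^ (-(s * ((l : ℝ) + u)))) * HL ρ F x := HL_le hle x
        _ ≤ ENNReal.ofReal ((2 : ℝ) ^ (-(s * ((l : ℝ) + u)))) *
            ENNReal.ofReal (a * (2 : ℝ) ^ (s * l)) := by gcongr
        _ = ENNReal.ofReal ((2 : ℝ) ^ (-(s * ((l : ℝ) + u))) * (a * (2 : ℝ) ^ (s * l))) :=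
            (ENNReal.ofReal_mul (by positivity)).symm
        _ ≤ _ := ENNReal.ofReal_le_ofReal hmul
    · intro k
      obtain ⟨-, -, -, -, hBBc⟩ := hLZF
      have hcB : BB (cutf f l U₀) := (hBBc f hf l).2 U₀
      have hc0 : ∀ y, 0 ≤ cutf f l U₀ y := by
        intro y
        unfold cutf
        exact indicator_nonneg (fun z _ => hf0 z) y
      have hle : ∀ y, ‖cutf f l U₀ y‖ₑ ≤ ENNReal.ofReal ((2 : ℝ) ^ ((1 - s) * l)) * ‖F y‖ₑ := by
        intro y
        unfold cutf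
        by_cases hy : y ∈ {x | (2 : ℝ) ^ l ≤ f x ∧ f x < (2 : ℝ) ^ (l + (U₀ : ℤ))}
        · rw [indicator_of_mem hy, Real.enorm_eq_ofReal (hf0 y), Real.enorm_eq_ofReal (hF0 y),
            ← ENNReal.ofReal_mul (by positivity)]
          apply ENNReal.ofReal_le_ofReal
          have h5 : (2 : ℝ) ^ (l : ℝ) ≤ f y := by
            have h6 := hy.1
            rw [hzr] at h6
            exact h6
          have h50 : 0 < f y := lt_of_lt_of_le (by positivity) h5
          have h7 : f y ^ (1 - s) ≤ (2 : ℝ) ^ ((1 - s) * l) := by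
            calc f y ^ (1 - s) ≤ ((2 : ℝ) ^ (l : ℝ)) ^ (1 - s) :=
                  Real.rpow_le_rpow_of_nonpos (by positivity) h5 (by linarith)
              _ = (2 : ℝ) ^ ((1 - s) * l) := by
                  rw [← Real.rpow_mul (by norm_num), mul_comm]
          calc f y = f y ^ (1 - s) * f y ^ s := by
                rw [← Real.rpow_add h50, sub_add_cancel, Real.rpow_one]
            _ ≤ (2 : ℝ) ^ ((1 - s) * l) * f y ^ s := by gcongr
            _ = (2 : ℝ) ^ ((1 - s) * l) * F y := by rw [hF]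
        · rw [indicator_of_notMem hy, enorm_zero]
          exact bot_le
      have hHc : HL ρ (cutf f l U₀) x ≤ ENNReal.ofReal (a * (2 : ℝ) ^ (l : ℝ)) := by
        calc HL ρ (cutf f l U₀) x
            ≤ ENNReal.ofReal ((2 : ℝ) ^ ((1 - s) * l)) * HL ρ F x := HL_le hle x
          _ ≤ ENNReal.ofReal ((2 : ℝ) ^ ((1 - s) * l)) *
              ENNReal.ofReal (a * (2 : ℝ) ^ (s * l)) := by gcongr
          _ = ENNReal.ofReal ((2 : ℝ) ^ ((1 - s) * l) * (a * (2 : ℝ) ^ (s * l))) :=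
              (ENNReal.ofReal_mul (by positivity)).symm
          _ = ENNReal.ofReal (a * (2 : ℝ) ^ (l : ℝ)) := by
              congr 1
              have h2 : (2 : ℝ) ^ ((1 - s) * l) * (2 : ℝ) ^ (s * l) = (2 : ℝ) ^ (l : ℝ) := by
                rw [← Real.rpow_add (by norm_num)]
                congr 1
                ring
              rw [← h2]
              ring
      have hY : ∀ j ∈ Finset.range (2 ^ U₀),
          Y (τ (tm U₀ j)) (ce c φ U₀ j) (mm τ U₀ j) (1 / (2 : ℝ) ^ U₀) k (cutf f l U₀) x ≤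
            (2 : ℝ) ^ l / 4 := by
        intro j hj
        have hj' : j < 2 ^ U₀ := Finset.mem_range.1 hj
        obtain ⟨-, -, -, -, -, hmK, -⟩ := hMM φ τ A₁ p hG hGap hA hp U₀ j hU₀ hj'
        have hcen : ‖ce c φ U₀ j‖ ≤ R := by
          rw [hR]
          exact (hSYS φ τ A₁ p c hG hGap hA hp U₀ hU₀).1.cen j hj'
        have hℓ1 : 1 / (2 : ℝ) ^ U₀ ≤ 1 := by
          rw [div_le_one (by positivity)]
          exact one_le_pow₀ (by norm_num)
        have h8 := hHLY (τ (tm U₀ j)) (ce c φ U₀ j) (mm τ U₀ j) (1 / (2 : ℝ) ^ U₀) R ρ k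
          (cutf f l U₀) x (hG.1 _) hcen (by positivity) hℓ1 hρ2 hcB hc0
        have h9 : ENNReal.ofReal (Y (τ (tm U₀ j)) (ce c φ U₀ j) (mm τ U₀ j)
            (1 / (2 : ℝ) ^ U₀) k (cutf f l U₀) x) ≤ ENNReal.ofReal ((2 : ℝ) ^ l / 4) := by
          calc _ ≤ ENNReal.ofReal ((4 : ℝ) ^ (mm τ U₀ j)) * HL ρ (cutf f l U₀) x := h8
            _ ≤ ENNReal.ofReal ((4 : ℝ) ^ K) * ENNReal.ofReal (a * (2 : ℝ) ^ (l : ℝ)) := by
                gcongr
                · norm_num
                · rw [hK]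
                  exact hmK
            _ = ENNReal.ofReal ((2 : ℝ) ^ l / 4) := by
                rw [← ENNReal.ofReal_mul (by positivity), hzr l, ha]
                congr 1
                field_simp
        rwa [ENNReal.ofReal_le_ofReal_iff (by positivity)] at h9
      unfold Sa
      have h10 := Finset.sum_le_sum hY
      rw [Finset.sum_const, Finset.card_range, nsmul_eq_mul] at h10
      have h2U : (0 : ℝ) < (2 : ℝ) ^ U₀ := by positivity
      calc 4 * (1 / (2 : ℝ) ^ U₀ * ∑ j ∈ Finset.range (2 ^ U₀),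
            Y (τ (tm U₀ j)) (ce c φ U₀ j) (mm τ U₀ j) (1 / (2 : ℝ) ^ U₀) k (cutf f l U₀) x)
          ≤ 4 * (1 / (2 : ℝ) ^ U₀ * (((2 ^ U₀ : ℕ) : ℝ) * ((2 : ℝ) ^ l / 4))) := by gcongr
        _ = (2 : ℝ) ^ l := by
            push_cast
            field_simp

end Pool.Agent.Helper62.EPL
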