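import Pool.Agent.Helper68.EP.St5

set_option autoImplicit false

/-! Project EP, module XL (written by helper62). -/

open MeasureTheory Set Filter Topology
open scoped ENNReal RealInnerProductSpace

namespace Pool.Agent.Helper62.EP.XL

open Pool.Agent.Helper68.EP Pool.Agent.Helper20.RG
open Pool.Agent.Helper68.LM (Pl BB Bd Av HL ft fm DQ)
open Pool.Agent.Helper20.RL (RQ Rich BM Fml)

theorem DD_pos (P : Par) (u : ℕ) : 0 < DD P u := by
  unfold DD
  positivity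

theorem DD_le (P : Par) {u : ℕ} {θ : ℝ} (ho : Ok P u θ) : 1024 * DD P u ≤ θ := by
  have h1 := ho.den
  have h2 : et P u (q0 P u) ≤ 1 := by
    unfold et
    rw [← zpow_zero (2 : ℝ)]
    apply zpow_le_zpow_right₀ (by norm_num)
    have := ho.qq.2
    omega
  have h3 := ho.th.1
  have h4 : et P u (q0 P u) * θ ≤ 1 * θ := by gcongr
  linarith

theorem u_le (P : Par) {u : ℕ} {θ : ℝ} (ho : Ok P u θ) {q : ℕ} (hq : q0 P u ≤ q) :
    (u : ℤ) ≤ 2 ^ q := by
  have h1 : u ≤ 2 ^ q := by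
    calc u ≤ 64 * u := by omega
      _ ≤ 2 ^ q0 P u := ho.uq
      _ ≤ 2 ^ q := Nat.pow_le_pow_right (by norm_num) hq
  exact_mod_cast h1

theorem hXL (hEQ : StEQ) (hEFB : StEFB) (hEVF : StEVF) (hETG : StETG) (hXW : StXW)
    (hLGR : Pool.Agent.Helper20.RL.StLGR) : StXL := by
  intro P Δ u j k θ E hSy hO hj hE
  have hθ : 0 < θ := hO.th.1
  have hDD := DD_le P hO
  have hDD0 := DD_pos P u
  obtain ⟨hV1, -, -, hV4⟩ := hEVF P Δ u j k θ E hE hθ
  obtain ⟨hL1, -, -, -, -⟩ := hLGR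
  obtain ⟨-, -, -, -, hQ5, -⟩ := hEQ
  obtain ⟨hF1, -, -, -, hF5⟩ := hEFB
  have hs : |Δ.sl u j| ≤ 1 := hSy.slope u j hO.u1 hj
  have hfl := (hSy.flat u j hO.u1 hj).2
  have hvol : ∀ y : Pl, volume (Qc P Δ u j k θ E y) =
      ENNReal.ofReal ((2 : ℝ) ^ (k - (u : ℤ) + Bc P Δ u j k θ E y)) := fun y =>
    (hL1 _ _ _ _).2.1
  -- from `volume (Fo q0 ∩ Q) ≤ 2 * volume (Fo q ∩ Q)` to richness
  have hrich : ∀ y ∈ Vc P Δ u j k θ E, ∀ q : ℕ,
      volume (Fo P u k (q0 P u) E ∩ Qc P Δ u j k θ E y) ≤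
        2 * volume (Fo P u k q E ∩ Qc P Δ u j k θ E y) →
      Rich (Fo P u k q E) (Δ.sl u j) (k - (u : ℤ)) (Bc P Δ u j k θ E y) (θ / 2) y := by
    intro y hy q hq
    have h1 : ENNReal.ofReal (θ * (2 : ℝ) ^ (k - (u : ℤ) + Bc P Δ u j k θ E y)) ≤
        volume (Fo P u k (q0 P u) E ∩ Qc P Δ u j k θ E y) := (hV1 y hy).1.2.2
    have h2 := h1.trans hq
    have h3 : ENNReal.ofReal (θ * (2 : ℝ) ^ (k - (u : ℤ) + Bc P Δ u j k θ E y)) =
        2 * ENNReal.ofReal (θ / 2 * (2 : ℝ) ^ (k - (u : ℤ) + Bc P Δ u j k θ E y)) := by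
      rw [← ENNReal.ofReal_ofNat 2, ← ENNReal.ofReal_mul (by norm_num)]
      congr 1
      ring
    rw [h3] at h2
    exact (ENNReal.mul_le_mul_iff_right (by norm_num) (by norm_num)).1 h2
  refine ⟨?_, ?_, ?_⟩
  · intro y hy
    obtain ⟨hB1, hB2, hyQ, hinv⟩ := hV1 y hy
    have hSub : Sub P Δ u j k θ E (Qc P Δ u j k θ E y) :=
      ⟨fun z hz => (hinv z hz).1, fun z hz => (hinv z hz).2.2.le⟩
    -- the key claim
    have key : ¬ volume (Fo P u k (q0 P u) E ∩ Qc P Δ u j k θ E y) ≤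
        2 * volume (Fo P u k (q1 P u) E ∩ Qc P Δ u j k θ E y) := by
      intro hle
      have h1 : ENNReal.ofReal (θ / 2 * (2 : ℝ) ^ (k - (u : ℤ) + Bc P Δ u j k θ E y)) ≤
          volume (Fo P u k (q1 P u) E ∩ Qc P Δ u j k θ E y) := hrich y hy _ hle
      have hm0 : MeasurableSet (Fo P u k (q0 P u) E) := ((hF1 _ _ _).2.1) hE.1
      have hm1 : MeasurableSet (Fo P u k (q1 P u) E) := ((hF1 _ _ _).2.1) hE.1
      have h2 := hETG (Fo P u k (q0 P u) E) (Fo P u k (q1 P u) E) (Δ.sl u j) θ (θ / 16)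
        (Qc P Δ u j k θ E y) (k - (u : ℤ)) (Bc P Δ u j k θ E) hm0 hm1 hθ (by positivity)
        (hV4 _ hSub).1
      obtain ⟨z, hzF, hzQ, hz⟩ : ∃ z, z ∈ Fo P u k (q1 P u) E ∧ z ∈ Qc P Δ u j k θ E y ∧
          ∀ a' : ℤ, a' ≤ k - (u : ℤ) →
            Rich (Fo P u k (q1 P u) E) (Δ.sl u j) a' (Bc P Δ u j k θ E z) (θ / 16) z := by
        by_contra hno
        have h3 : Fo P u k (q1 P u) E ∩ Qc P Δ u j k θ E y ⊆
            {z | z ∈ Fo P u k (q1 P u) E ∧ z ∈ Qc P Δ u j k θ E y ∧ ∃ a' : ℤ, a' ≤ k - (u : ℤ) ∧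
              ¬ Rich (Fo P u k (q1 P u) E) (Δ.sl u j) a' (Bc P Δ u j k θ E z) (θ / 16) z} := by
          rintro z ⟨hz1, hz2⟩
          refine ⟨hz1, hz2, ?_⟩
          by_contra hno2
          apply hno
          refine ⟨z, hz1, hz2, ?_⟩
          intro a' ha'
          by_contra hR
          exact hno2 ⟨a', ha', hR⟩
        have h4 := h1.trans ((measure_mono h3).trans h2)
        rw [hvol y, ← ENNReal.ofReal_mul (by positivity)] at h4
        have hp : 0 < (2 : ℝ) ^ (k - (u : ℤ) + Bc P Δ u j k θ E y) := by positivity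
        rw [ENNReal.ofReal_le_ofReal_iff (by positivity)] at h4
        have h5 := le_of_mul_le_mul_right h4 hp
        linarith
      have hBz : Bc P Δ u j k θ E z = Bc P Δ u j k θ E y := (hinv z hzQ).2.1
      rw [hBz] at hz
      have hBa : Bc P Δ u j k θ E y ≤ k - (u : ℤ) := by
        have h3 := u_le P hO (le_refl (q0 P u))
        have h4 := hB1.2.1
        omega
      have h3 := hz (Bc P Δ u j k θ E y) hBa
      have h4 : ENNReal.ofReal (θ / 16 * (2 : ℝ) ^ (Bc P Δ u j k θ E y + Bc P Δ u j k θ E y)) ≤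
          volume (E ∩ DQ3 (Bc P Δ u j k θ E y + 1) z) :=
        le_trans h3 (measure_mono (inter_subset_inter (hF1 _ _ _).1 (hQ5 _ _ _ hs)))
      have h5 : volume (E ∩ DQ3 (Bc P Δ u j k θ E y + 1) z) ≤
          ENNReal.ofReal (DD P u * (4 : ℝ) ^ (Bc P Δ u j k θ E y + 1)) := by
        apply hzF.2
        have h6 := hB1.1
        have h7 : (Δ.fl u j : ℤ) ≤ 2 ^ q1 P u := by exact_mod_cast hfl
        omega
      have h6 := h4.trans h5
      have hp : 0 < (4 : ℝ) ^ Bc P Δ u j k θ E y := by positivity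
      have h7 : (2 : ℝ) ^ (Bc P Δ u j k θ E y + Bc P Δ u j k θ E y) =
          (4 : ℝ) ^ Bc P Δ u j k θ E y := by
        rw [zpow_add₀ (by norm_num), ← mul_zpow]
        norm_num
      have h8 : (4 : ℝ) ^ (Bc P Δ u j k θ E y + 1) = 4 * (4 : ℝ) ^ Bc P Δ u j k θ E y := by
        rw [zpow_add₀ (by norm_num), zpow_one, mul_comm]
      rw [h7, h8, ENNReal.ofReal_le_ofReal_iff (by positivity)] at h6
      have h9 : θ / 16 ≤ 4 * DD P u := by
        have h10 : θ / 16 * (4 : ℝ) ^ Bc P Δ u j k θ E y ≤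
            (4 * DD P u) * (4 : ℝ) ^ Bc P Δ u j k θ E y := by linarith
        exact le_of_mul_le_mul_right h10 hp
      linarith
    classical
    have hex : ∃ q' : ℕ, q0 P u ≤ q' ∧ ¬ volume (Fo P u k (q0 P u) E ∩ Qc P Δ u j k θ E y) ≤
        2 * volume (Fo P u k q' E ∩ Qc P Δ u j k θ E y) := ⟨q1 P u, hO.qq.2.le, key⟩
    obtain ⟨hq'1, hq'2⟩ := Nat.find_spec hex
    have hmin : ∀ q : ℕ, q < Nat.find hex → q0 P u ≤ q →
        volume (Fo P u k (q0 P u) E ∩ Qc P Δ u j k θ E y) ≤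
          2 * volume (Fo P u k q E ∩ Qc P Δ u j k θ E y) := by
      intro q hq hq0
      by_contra hno
      exact Nat.find_min hex hq ⟨hq0, hno⟩
    have hle1 : Nat.find hex ≤ q1 P u := Nat.find_min' hex ⟨hO.qq.2.le, key⟩
    generalize Nat.find hex = q' at hq'1 hq'2 hmin hle1
    have hne : q' ≠ q0 P u := by
      rintro rfl
      apply hq'2
      rw [two_mul]
      exact le_self_add
    obtain ⟨q, rfl⟩ : ∃ q, q' = q + 1 := ⟨q' - 1, by omega⟩
    refine ⟨q, by omega, by omega, hy, hmin q (by omega) (by omega), ?_⟩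
    exact not_le.1 hq'2
  · intro q hq y hy
    have hR := hrich y hy.1 q hy.2.1
    refine ⟨hR, ?_⟩
    by_contra hlt
    have hu2 := u_le P hO hq
    have h1 := hXW (Fo P u k q E) (Δ.sl u j) (k - (u : ℤ)) (k - 2 ^ q) (Bc P Δ u j k θ E y)
      (DD P u) (θ / 2) y hs (by omega) (by omega) hDD0.le (fun y' b' hb => hF5 E _ _ b' y' hb) hR
    linarith
  · intro q
    refine ⟨fun y hy => hy.1, ?_⟩
    intro y hy z hz
    obtain ⟨h1, h2, h3⟩ := (hV1 y hy.1).2.2.2 z hz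
    refine ⟨h1, ?_, ?_⟩
    · rw [h3]
      exact hy.2.1
    · rw [h3]
      exact hy.2.2

end Pool.Agent.Helper62.EP.XL
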